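import Mathlib

set_option autoImplicit false

open Polynomial IsLocalRing

namespace Pool.Agent.Y379.RG

/-! ### generalities on local rings -/

/-- chains of primes of length two lift along injective integral extensions -/
lemma dim_two {A B : Type*} [CommRing A] [CommRing B] [Algebra A B] [Algebra.IsIntegral A B]
    (hinj : Function.Injective (algebraMap A B)) (h : 2 ≤ ringKrullDim A) :
    2 ≤ ringKrullDim B := by
  have h' : ((2 : ℕ) : WithBot ℕ∞) ≤ Order.krullDim (PrimeSpectrum A) := h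
  obtain ⟨l, hl⟩ := Order.le_krullDim_iff.1 h'
  obtain ⟨p0, p1, p2, l01, l12⟩ : ∃ p0 p1 p2 : PrimeSpectrum A, p0 < p1 ∧ p1 < p2 :=
    ⟨l ⟨0, by omega⟩, l ⟨1, by omega⟩, l ⟨2, by omega⟩, l.strictMono (by simp [Fin.lt_def]),
      l.strictMono (by simp [Fin.lt_def])⟩
  obtain ⟨q0, _, hq0, hc0⟩ := Ideal.exists_ideal_over_prime_of_isIntegral p0.asIdeal (⊥ : Ideal B)
    (by
      intro a ha
      have h1 : algebraMap A B a = 0 := by simpa using ha
      have h2 : a = 0 := hinj (by rw [h1, map_zero])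
      rw [h2]
      exact Ideal.zero_mem _)
  obtain ⟨q1, h01, hq1, hc1⟩ := Ideal.exists_ideal_over_prime_of_isIntegral p1.asIdeal q0
    (by rw [hc0]; exact l01.le)
  obtain ⟨q2, h12, hq2, hc2⟩ := Ideal.exists_ideal_over_prime_of_isIntegral p2.asIdeal q1
    (by rw [hc1]; exact l12.le)
  have k01 : (⟨q0, hq0⟩ : PrimeSpectrum B) < ⟨q1, hq1⟩ := by
    refine lt_of_le_of_ne h01 ?_
    intro he
    have he' : q0 = q1 := congrArg PrimeSpectrum.asIdeal he
    exact l01.ne (PrimeSpectrum.ext (by rw [← hc0, ← hc1, he']))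
  have k12 : (⟨q1, hq1⟩ : PrimeSpectrum B) < ⟨q2, hq2⟩ := by
    refine lt_of_le_of_ne h12 ?_
    intro he
    have he' : q1 = q2 := congrArg PrimeSpectrum.asIdeal he
    exact l12.ne (PrimeSpectrum.ext (by rw [← hc1, ← hc2, he']))
  have h2 : ((2 : ℕ) : WithBot ℕ∞) ≤ Order.krullDim (PrimeSpectrum B) := by
    refine Order.le_krullDim_iff.2 ⟨⟨2, ![⟨q0, hq0⟩, ⟨q1, hq1⟩, ⟨q2, hq2⟩], ?_⟩, rfl⟩
    intro i
    fin_cases i
    · exact k01
    · exact k12
  exact h2

lemma not_nilpotent {R : Type*} [CommRing R] [IsLocalRing R] {w : R}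
    (hm : maximalIdeal R = Ideal.span {w}) (h : 1 ≤ ringKrullDim R) : ¬ IsNilpotent w := by
  intro hw
  have h' : ((1 : ℕ) : WithBot ℕ∞) ≤ Order.krullDim (PrimeSpectrum R) := h
  obtain ⟨l, hl⟩ := Order.le_krullDim_iff.1 h'
  obtain ⟨p0, p1, l01⟩ : ∃ p0 p1 : PrimeSpectrum R, p0 < p1 :=
    ⟨l ⟨0, by omega⟩, l ⟨1, by omega⟩, l.strictMono (by simp [Fin.lt_def])⟩
  obtain ⟨n, hn⟩ := hw
  have h1 : w ∈ p0.asIdeal := p0.2.mem_of_pow_mem n (by rw [hn]; exact Ideal.zero_mem _)
  have h2 : maximalIdeal R ≤ p0.asIdeal := by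
    rw [hm, Ideal.span_singleton_le_iff_mem]
    exact h1
  have h3 : p1.asIdeal ≤ maximalIdeal R := le_maximalIdeal p1.2.ne_top
  exact absurd (h3.trans h2) (not_le_of_gt l01)

lemma isDomain_of_principal {R : Type*} [CommRing R] [IsLocalRing R] [IsNoetherianRing R] {w : R}
    (hm : maximalIdeal R = Ideal.span {w}) (hw : ¬ IsNilpotent w) : IsDomain R := by
  have hrep : ∀ a : R, a ≠ 0 → ∃ (n : ℕ) (u : R), IsUnit u ∧ a = u * w ^ n := by
    intro a ha
    have h1 : ∃ n, a ∉ (maximalIdeal R) ^ n := by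
      by_contra hcon
      push Not at hcon
      have h2 : a ∈ ⨅ i : ℕ, (maximalIdeal R) ^ i := by
        rw [Ideal.mem_iInf]
        exact hcon
      rw [Ideal.iInf_pow_eq_bot_of_isLocalRing _ (maximalIdeal.isMaximal R).ne_top] at h2
      exact ha (by simpa using h2)
    classical
    have h3 := Nat.find_spec h1
    have h4 : Nat.find h1 ≠ 0 := by
      intro h0
      rw [h0, pow_zero] at h3
      exact h3 (by simp)
    obtain ⟨k, hk⟩ : ∃ k, Nat.find h1 = k + 1 := ⟨Nat.find h1 - 1, by omega⟩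
    have h5 : a ∈ (maximalIdeal R) ^ k := by
      have := Nat.find_min h1 (m := k) (by omega)
      simpa using this
    rw [hm, Ideal.span_singleton_pow, Ideal.mem_span_singleton'] at h5
    obtain ⟨u, hu⟩ := h5
    refine ⟨k, u, ?_, hu.symm⟩
    by_contra hnu
    have h6 : u ∈ maximalIdeal R := hnu
    rw [hk] at h3
    apply h3
    rw [← hu, pow_succ', hm, Ideal.span_singleton_pow]
    rw [hm] at h6
    exact Ideal.mul_mem_mul h6 (Ideal.mem_span_singleton_self _)
  have hzd : NoZeroDivisors R := by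
    refine ⟨fun {a b} hab => ?_⟩
    by_contra hcon
    push Not at hcon
    obtain ⟨n, u, hu, rfl⟩ := hrep a hcon.1
    obtain ⟨m, v, hv, rfl⟩ := hrep b hcon.2
    have h1 : (u * v) * w ^ (n + m) = 0 := by
      rw [← hab, pow_add]
      ring
    exact hw ⟨n + m, ((hu.mul hv).mul_right_eq_zero).1 h1⟩
  exact NoZeroDivisors.to_isDomain R

lemma finrank_span_one {R : Type*} [CommRing R] (w : R) :
    ((Ideal.span {w} : Ideal R).spanFinrank : WithBot ℕ∞) ≤ 1 := by
  have : (Ideal.span {w} : Ideal R).spanFinrank ≤ 1 := by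
    refine (Submodule.spanFinrank_span_le_ncard_of_finite (Set.toFinite _)).trans ?_
    simp
  exact_mod_cast this

lemma finrank_span_two {R : Type*} [CommRing R] (x w : R) :
    ((Ideal.span {x, w} : Ideal R).spanFinrank : WithBot ℕ∞) ≤ 2 := by
  have : (Ideal.span {x, w} : Ideal R).spanFinrank ≤ 2 := by
    refine (Submodule.spanFinrank_span_le_ncard_of_finite (Set.toFinite _)).trans ?_
    exact (Set.ncard_insert_le _ _).trans (by simp)
  exact_mod_cast this

/-- a regular local ring of dimension at most one has a principal maximal ideal -/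
lemma principal_of_regular {R : Type*} [CommRing R] [IsRegularLocalRing R]
    (h : ringKrullDim R ≤ 1) : ∃ t : R, maximalIdeal R = Ideal.span {t} := by
  have h1 := IsRegularLocalRing.spanFinrank_maximalIdeal (R := R)
  have h2 : (maximalIdeal R).spanFinrank ≤ 1 := by
    have : ((maximalIdeal R).spanFinrank : WithBot ℕ∞) ≤ 1 := h1.trans_le h
    exact_mod_cast this
  have hfg : (maximalIdeal R).FG := (maximalIdeal R).fg_of_isNoetherianRing
  have h3 := Submodule.FG.generators_ncard hfg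
  have hfin := Submodule.FG.finite_generators hfg
  have h4 := (maximalIdeal R).span_generators
  rw [← h3] at h2
  have h5 : (maximalIdeal R).generators.Subsingleton := by
    intro a ha b hb
    exact (Set.ncard_le_one hfin).1 h2 a ha b hb
  rcases h5.eq_empty_or_singleton with h6 | ⟨t, h6⟩
  · refine ⟨0, ?_⟩
    rw [← h4, h6]
    simp
  · exact ⟨t, by rw [← h4, h6]⟩

/-! ### the polynomial identities -/

section identities

variable {S : Type*} [CommRing S] {k : ℕ} {c : ℕ → S} {P X W : S}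

/-- the defining relation -/
def Rel (k : ℕ) (c : ℕ → S) (P X W : S) : Prop :=
  W ^ (k + 1) + ∑ j ∈ Finset.range k, c j * X ^ (k - j) * W ^ (j + 1) + (-1) ^ (k + 1) * P = 0

lemma neg_one_sq (k : ℕ) : ((-1 : S) ^ (k + 1)) * (-1) ^ (k + 1) = 1 := by
  rw [← mul_pow]
  simp

lemma Rel.dvd (h : Rel k c P X W) : W ∣ P := by
  unfold Rel at h
  have h1 : P = W * (-((-1) ^ (k + 1) * (W ^ k + ∑ j ∈ Finset.range k, c j * X ^ (k - j) * W ^ j))) := by
    have h2 : W * ∑ j ∈ Finset.range k, c j * X ^ (k - j) * W ^ j =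
        ∑ j ∈ Finset.range k, c j * X ^ (k - j) * W ^ (j + 1) := by
      rw [Finset.mul_sum]
      refine Finset.sum_congr rfl fun j _ => ?_
      ring
    have h3 := neg_one_sq (S := S) k
    linear_combination (-1) ^ (k + 1) * h - P * h3 + (-1) ^ (k + 1) * h2
  exact ⟨_, h1⟩

lemma Rel.pow (h : Rel k c P X W)
    (hc : ∀ j < k, ((k + 1).choose (j + 1) : S) = c j * (-P) ^ (k - j)) :
    (X - P * W) ^ (k + 1) = X ^ (k + 1) - P ^ (k + 2) := by
  unfold Rel at h
  have h1 : (X - P * W) ^ (k + 1) = (-(P * W) + X) ^ (k + 1) := by ring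
  rw [h1, add_pow, Finset.sum_range_succ, Finset.sum_range_succ']
  have h2 : ∑ j ∈ Finset.range k, (-(P * W)) ^ (j + 1) * X ^ (k + 1 - (j + 1)) *
      ((k + 1).choose (j + 1) : S) =
      (-P) ^ (k + 1) * ∑ j ∈ Finset.range k, c j * X ^ (k - j) * W ^ (j + 1) := by
    rw [Finset.mul_sum]
    refine Finset.sum_congr rfl fun j hj => ?_
    have hj' := Finset.mem_range.1 hj
    rw [hc j hj', show k + 1 - (j + 1) = k - j by omega]
    have h3 : (-P) ^ (k + 1) = (-P) ^ (j + 1) * (-P) ^ (k - j) := by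
      rw [← pow_add]
      congr 1
      omega
    rw [h3, ← neg_mul, mul_pow]
    ring
  rw [h2]
  simp only [Nat.choose_zero_right, Nat.cast_one, mul_one, pow_zero, one_mul, Nat.sub_zero,
    Nat.choose_self, Nat.sub_self]
  have h3 : (-P) ^ (k + 1) * ((-1) ^ (k + 1) * P) = P ^ (k + 2) := by
    rw [neg_pow]
    have := neg_one_sq (S := S) k
    linear_combination P ^ (k + 2) * this
  have h4 : (-(P * W)) ^ (k + 1) = (-P) ^ (k + 1) * W ^ (k + 1) := by
    rw [← mul_pow]
    ring
  rw [h4]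
  linear_combination (-P) ^ (k + 1) * h - h3

lemma Rel.eq_pow (h : Rel k c P X W)
    (hc : ∀ j < k, ((k + 1).choose (j + 1) : S) = c j * (-P) ^ (k - j)) (hX : X = P * W) :
    P = W ^ (k + 1) := by
  unfold Rel at h
  have h1 : ∑ j ∈ Finset.range k, c j * X ^ (k - j) * W ^ (j + 1) =
      (∑ j ∈ Finset.range k, (-1) ^ (k - j) * ((k + 1).choose (j + 1) : S)) * W ^ (k + 1) := by
    rw [Finset.sum_mul]
    refine Finset.sum_congr rfl fun j hj => ?_
    have hj' := Finset.mem_range.1 hj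
    rw [hc j hj', hX, mul_pow]
    have h3 : W ^ (k + 1) = W ^ (k - j) * W ^ (j + 1) := by
      rw [← pow_add]
      congr 1
      omega
    have h4 : P ^ (k - j) = (-1) ^ (k - j) * (-P) ^ (k - j) := by
      rw [← mul_pow]
      ring
    rw [h3, h4]
    ring
  have h2 : (0 : S) = ∑ j ∈ Finset.range k, (-1) ^ (k - j) * ((k + 1).choose (j + 1) : S) +
      (-1) ^ (k + 1) + 1 := by
    have h3 : ((1 : S) + (-1)) ^ (k + 1) = 0 := by
      rw [add_neg_cancel, zero_pow (by omega)]
    rw [← h3, add_pow, Finset.sum_range_succ, Finset.sum_range_succ']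
    simp only [one_pow, one_mul, Nat.choose_zero_right, Nat.cast_one, mul_one,
      Nat.sub_zero, Nat.choose_self, Nat.sub_self, pow_zero]
    congr 2
    refine Finset.sum_congr rfl fun j hj => ?_
    rw [show k + 1 - (j + 1) = k - j by omega]
  rw [h1] at h
  have h3 := neg_one_sq (S := S) k
  linear_combination (-1) ^ (k + 1) * h + (-1) ^ (k + 1) * W ^ (k + 1) * h2 - (P - W ^ (k + 1)) * h3

end identities

end Pool.Agent.Y379.RG
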