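import Mathlib
import Pool.Agent.Y379.RG.Gen

set_option autoImplicit false

open Polynomial IsLocalRing

namespace Pool.Agent.Y379.RG

universe u

lemma wb_one {x : WithBot ℕ∞} (h : 2 ≤ x + 1) : 1 ≤ x := by
  induction x with
  | bot =>
    rw [WithBot.bot_add] at h
    exact absurd h (by decide)
  | coe e =>
    have h0 : ((2 : ℕ∞) : WithBot ℕ∞) ≤ ((e + 1 : ℕ∞) : WithBot ℕ∞) := h
    have h' : (1 : ℕ∞) + 1 ≤ e + 1 := by
      rw [one_add_one_eq_two]
      exact WithBot.coe_le_coe.1 h0
    have h2 : (1 : ℕ∞) ≤ e := (ENat.add_le_add_iff_right ENat.one_ne_top).1 h'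
    exact_mod_cast h2

lemma wb_two {x : WithBot ℕ∞} (h : x + 1 ≤ 2) : x ≤ 1 := by
  induction x with
  | bot => exact bot_le
  | coe e =>
    have h0 : ((e + 1 : ℕ∞) : WithBot ℕ∞) ≤ ((2 : ℕ∞) : WithBot ℕ∞) := h
    have h' : e + 1 ≤ (1 : ℕ∞) + 1 := by
      rw [one_add_one_eq_two]
      exact WithBot.coe_le_coe.1 h0
    have h2 : e ≤ (1 : ℕ∞) := (ENat.add_le_add_iff_right ENat.one_ne_top).1 h'
    exact_mod_cast h2

section construction

variable {A : Type u} [CommRing A]

/-- the defining polynomial -/
noncomputable def Q (k : ℕ) (c : ℕ → A) (P X' : A) : A[X] :=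
  X ^ (k + 1) + (∑ j ∈ Finset.range k, C (c j * X' ^ (k - j)) * X ^ (j + 1) +
    C ((-1) ^ (k + 1) * P))

lemma Q_monic (k : ℕ) (c : ℕ → A) (P X' : A) : (Q k c P X').Monic := by
  refine monic_X_pow_add ?_
  rw [← mem_degreeLT]
  refine Submodule.add_mem _ (Submodule.sum_mem _ fun j hj => ?_) ?_
  · rw [mem_degreeLT]
    refine (degree_C_mul_X_pow_le _ _).trans_lt ?_
    have := Finset.mem_range.1 hj
    exact_mod_cast (by omega : j + 1 < k + 1)
  · rw [mem_degreeLT]
    refine degree_C_le.trans_lt ?_
    exact_mod_cast Nat.succ_pos k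

lemma Q_eval {S : Type*} [CommRing S] (f : A →+* S) (k : ℕ) (c : ℕ → A) (P X' : A) (W : S) :
    (Q k c P X').eval₂ f W = W ^ (k + 1) + ∑ j ∈ Finset.range k,
      f (c j) * f X' ^ (k - j) * W ^ (j + 1) + (-1) ^ (k + 1) * f P := by
  unfold Q
  simp only [eval₂_add, eval₂_pow, eval₂_X, eval₂_finsetSum, eval₂_mul, eval₂_C]
  simp only [map_mul, map_pow, map_neg, map_one]
  ring

variable [IsDomain A] [IsRegularLocalRing A]

/-- the main construction -/
theorem main {k : ℕ} (hk : 1 ≤ k) {c : ℕ → A} {P X' : A}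
    (hm : maximalIdeal A = Ideal.span {P, X'}) (hdim : ringKrullDim A = 2)
    (hc : ∀ j < k, ((k + 1).choose (j + 1) : A) = c j * (-P) ^ (k - j)) :
    ∃ (B : Type u) (_ : CommRing B) (_ : Algebra A B),
      IsRegularLocalRing B ∧ Function.Injective (algebraMap A B) ∧ Module.Finite A B ∧
      Module.Free A B ∧ Module.finrank A B = k + 1 ∧
      ∃ p : Ideal A, p.IsPrime ∧
        IsRegularLocalRing (B ⧸ (p.map (algebraMap A B)).radical) ∧
        X' ^ (k + 1) - P ^ (k + 2) ∈ p ∧ ¬ IsRegularLocalRing (A ⧸ p) := by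
  have hPm : P ∈ maximalIdeal A := by
    rw [hm]
    exact Ideal.subset_span (by simp)
  have hXm : X' ∈ maximalIdeal A := by
    rw [hm]
    exact Ideal.subset_span (by simp)
  set q := Q k c P X' with hq
  have hqm : q.Monic := Q_monic k c P X'
  have hfin : Module.Finite A (AdjoinRoot q) := hqm.finite_adjoinRoot
  have hfree : Module.Free A (AdjoinRoot q) := hqm.free_adjoinRoot
  have hnd : q.natDegree = k + 1 := by
    rw [hq]
    unfold Q
    refine natDegree_eq_of_degree_eq_some ?_
    rw [degree_add_eq_left_of_degree_lt, degree_X_pow]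
    rw [degree_X_pow, ← mem_degreeLT]
    refine Submodule.add_mem _ (Submodule.sum_mem _ fun j hj => ?_) ?_
    · rw [mem_degreeLT]
      refine (degree_C_mul_X_pow_le _ _).trans_lt ?_
      have := Finset.mem_range.1 hj
      exact_mod_cast (by omega : j + 1 < k + 1)
    · rw [mem_degreeLT]
      refine degree_C_le.trans_lt ?_
      exact_mod_cast Nat.succ_pos k
  have hinj : Function.Injective (algebraMap A (AdjoinRoot q)) :=
    AdjoinRoot.of.injective_of_degree_ne_zero (by
      rw [Polynomial.degree_eq_natDegree hqm.ne_zero, hnd]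
      exact_mod_cast Nat.succ_ne_zero k)
  have hnoeth : IsNoetherianRing (AdjoinRoot q) := IsNoetherianRing.of_finite A _
  have hnt : Nontrivial (AdjoinRoot q) := hinj.nontrivial
  set al := algebraMap A (AdjoinRoot q) with hal
  set w : AdjoinRoot q := AdjoinRoot.root q with hw
  have hrel : Rel k (fun j => al (c j)) (al P) (al X') w := by
    have h1 := AdjoinRoot.eval₂_root q
    rw [hq, Q_eval, ← hq] at h1
    exact h1
  -- decomposition
  have hdec : ∀ b : AdjoinRoot q, ∃ (a : A) (b' : AdjoinRoot q), b = al a + b' * w := by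
    intro b
    obtain ⟨f, rfl⟩ := AdjoinRoot.mk_surjective b
    refine ⟨f.coeff 0, AdjoinRoot.mk q f.divX, ?_⟩
    conv_lhs => rw [← divX_mul_X_add f]
    rw [map_add, map_mul, AdjoinRoot.mk_X, AdjoinRoot.mk_C, add_comm]
    rfl
  -- residue map
  have hres0 : q.eval₂ (residue A) 0 = 0 := by
    rw [hq, Q_eval, zero_pow (by omega), Finset.sum_eq_zero, (residue_eq_zero_iff P).2 hPm]
    · ring
    · intro j _
      rw [zero_pow (by omega), mul_zero]
  set e : AdjoinRoot q →+* ResidueField A := AdjoinRoot.lift (residue A) 0 hres0 with he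
  have he_al : ∀ a, e (al a) = residue A a := fun a => AdjoinRoot.lift_of _
  have he_w : e w = 0 := AdjoinRoot.lift_root _
  have hsurj : Function.Surjective e := by
    intro r
    obtain ⟨a, rfl⟩ := residue_surjective r
    exact ⟨al a, he_al a⟩
  have hmaxM : (RingHom.ker e).IsMaximal := RingHom.ker_isMaximal_of_surjective e hsurj
  have huniq : ∀ N : Ideal (AdjoinRoot q), N.IsMaximal → N = RingHom.ker e := by
    intro N hN
    have h1 : (N.comap al).IsMaximal := Ideal.isMaximal_comap_of_isIntegral_of_isMaximal N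
    have h2 : N.comap al = maximalIdeal A := eq_maximalIdeal h1
    have hP : al P ∈ N := by
      have : P ∈ N.comap al := by rw [h2]; exact hPm
      exact this
    have hX : al X' ∈ N := by
      have : X' ∈ N.comap al := by rw [h2]; exact hXm
      exact this
    have hwN : w ∈ N := by
      have h3 : w ^ (k + 1) ∈ N := by
        have h4 : w ^ (k + 1) = -(∑ j ∈ Finset.range k,
            (al (c j)) * (al X') ^ (k - j) * w ^ (j + 1)) - (-1) ^ (k + 1) * al P := by
          have h5 := hrel
          unfold Rel at h5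
          linear_combination h5
        rw [h4]
        refine N.sub_mem (N.neg_mem (N.sum_mem fun j hj => ?_)) (N.mul_mem_left _ hP)
        have hj' := Finset.mem_range.1 hj
        refine N.mul_mem_right _ (N.mul_mem_left _ ?_)
        exact N.pow_mem_of_mem hX _ (by omega)
      exact hN.isPrime.mem_of_pow_mem _ h3
    refine (hmaxM.eq_of_le hN.ne_top ?_).symm
    intro b hb
    obtain ⟨a, b', rfl⟩ := hdec b
    rw [RingHom.mem_ker, map_add, map_mul, he_w, mul_zero, add_zero, he_al,
      residue_eq_zero_iff, ← h2] at hb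
    exact N.add_mem hb (N.mul_mem_left _ hwN)
  have hloc : IsLocalRing (AdjoinRoot q) :=
    IsLocalRing.of_unique_max_ideal ⟨RingHom.ker e, hmaxM, fun N hN => huniq N hN⟩
  have hmker : maximalIdeal (AdjoinRoot q) = RingHom.ker e := huniq _ (maximalIdeal.isMaximal _)
  have hmB : maximalIdeal (AdjoinRoot q) = Ideal.span {al X', w} := by
    rw [hmker]
    apply le_antisymm
    · intro b hb
      obtain ⟨a, b', rfl⟩ := hdec b
      rw [RingHom.mem_ker, map_add, map_mul, he_w, mul_zero, add_zero, he_al,
        residue_eq_zero_iff, hm] at hb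
      obtain ⟨r, s, hrs⟩ := Ideal.mem_span_pair.1 hb
      obtain ⟨t, ht⟩ := hrel.dvd
      refine Ideal.mem_span_pair.2 ⟨al s, al r * t + b', ?_⟩
      rw [← hrs, map_add, map_mul, map_mul, ht]
      ring
    · rw [Ideal.span_le]
      rintro b (rfl | rfl)
      · show e (al X') = 0
        rw [he_al, residue_eq_zero_iff]
        exact hXm
      · show e w = 0
        exact he_w
  have hdimB : 2 ≤ ringKrullDim (AdjoinRoot q) := by
    have : Algebra.IsIntegral A (AdjoinRoot q) := inferInstance
    exact dim_two hinj hdim.ge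
  have hregB : IsRegularLocalRing (AdjoinRoot q) := by
    apply IsRegularLocalRing.of_spanFinrank_maximalIdeal_le
    refine le_trans ?_ hdimB
    rw [hmB]
    exact finrank_span_two _ _
  -- the quotient by `g`
  set g : AdjoinRoot q := al X' - al P * w with hg
  have hgm : g ∈ maximalIdeal (AdjoinRoot q) := by
    rw [hmB]
    exact Ideal.mem_span_pair.2 ⟨1, -al P, by rw [hg]; ring⟩
  have hgne : (Ideal.span {g} : Ideal (AdjoinRoot q)) ≠ ⊤ := by
    intro hcon
    have h1 : (Ideal.span {g} : Ideal (AdjoinRoot q)) ≤ maximalIdeal _ := by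
      rw [Ideal.span_singleton_le_iff_mem]
      exact hgm
    rw [hcon] at h1
    exact (maximalIdeal.isMaximal (AdjoinRoot q)).ne_top (top_le_iff.1 h1)
  have hntO : Nontrivial (AdjoinRoot q ⧸ Ideal.span {g}) := Ideal.Quotient.nontrivial_iff.2 hgne
  set mk := Ideal.Quotient.mk (Ideal.span {g} : Ideal (AdjoinRoot q)) with hmk
  have hlocO : IsLocalRing (AdjoinRoot q ⧸ Ideal.span {g}) :=
    IsLocalRing.of_surjective' mk Ideal.Quotient.mk_surjective
  have hXPw : mk (al X') = mk (al P) * mk w := by
    rw [← map_mul, hmk, Ideal.Quotient.eq]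
    exact Ideal.mem_span_singleton_self _
  have hlochom : IsLocalHom mk := IsLocalHom.of_surjective mk Ideal.Quotient.mk_surjective
  have hmO : maximalIdeal (AdjoinRoot q ⧸ Ideal.span {g}) = Ideal.span {mk w} := by
    apply le_antisymm
    · intro bb hb
      obtain ⟨b, rfl⟩ := Ideal.Quotient.mk_surjective bb
      have h1 : b ∈ maximalIdeal (AdjoinRoot q) := by
        intro hu
        exact hb (hu.map _)
      rw [hmB] at h1
      obtain ⟨r, s, rfl⟩ := Ideal.mem_span_pair.1 h1
      refine Ideal.mem_span_singleton'.2 ⟨mk r * mk (al P) + mk s, ?_⟩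
      rw [← hmk, map_add, map_mul, map_mul, hXPw]
      ring
    · rw [Ideal.span_singleton_le_iff_mem]
      have h1 : w ∈ maximalIdeal (AdjoinRoot q) := by
        rw [hmB]
        exact Ideal.subset_span (by simp)
      exact map_nonunit mk w h1
  have hdimO : 1 ≤ ringKrullDim (AdjoinRoot q ⧸ Ideal.span {g}) := by
    have h1 := Ideal.height_le_ringKrullDim_quotient_add_one (p := maximalIdeal (AdjoinRoot q)) hgm
    rw [IsLocalRing.maximalIdeal_height_eq_ringKrullDim] at h1
    have h2 := hdimB.trans h1
    exact wb_one h2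
  have hnil : ¬ IsNilpotent (mk w) := not_nilpotent hmO hdimO
  have hdomO : IsDomain (AdjoinRoot q ⧸ Ideal.span {g}) := isDomain_of_principal hmO hnil
  have hregO : IsRegularLocalRing (AdjoinRoot q ⧸ Ideal.span {g}) := by
    apply IsRegularLocalRing.of_spanFinrank_maximalIdeal_le
    refine le_trans ?_ hdimO
    rw [hmO]
    exact finrank_span_one _
  have hgp : (Ideal.span {g} : Ideal (AdjoinRoot q)).IsPrime :=
    (Ideal.Quotient.isDomain_iff_prime _).1 hdomO
  set p : Ideal A := (Ideal.span {g}).comap al with hp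
  have hpprime : p.IsPrime := Ideal.IsPrime.comap al
  have hc' : ∀ j < k, ((k + 1).choose (j + 1) : AdjoinRoot q) = al (c j) * (-al P) ^ (k - j) := by
    intro j hj
    have := congrArg al (hc j hj)
    rw [map_natCast, map_mul, map_pow, map_neg] at this
    exact this
  have hgpow : g ^ (k + 1) = al (X' ^ (k + 1) - P ^ (k + 2)) := by
    rw [hg, hrel.pow hc', map_sub, map_pow, map_pow]
  have hfp : X' ^ (k + 1) - P ^ (k + 2) ∈ p := by
    show al (X' ^ (k + 1) - P ^ (k + 2)) ∈ Ideal.span {g}
    rw [← hgpow]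
    exact Ideal.pow_mem_of_mem _ (Ideal.mem_span_singleton_self _) _ (by omega)
  have hrad : (p.map al).radical = Ideal.span {g} := by
    apply le_antisymm
    · rw [hgp.radical_le_iff]
      exact Ideal.map_comap_le
    · rw [Ideal.span_singleton_le_iff_mem]
      refine ⟨k + 1, ?_⟩
      rw [hgpow]
      exact Ideal.mem_map_of_mem _ hfp
  -- non-regularity
  have hW : mk (al P) = mk w ^ (k + 1) := by
    have h1 : Rel k (fun j => mk (al (c j))) (mk (al P)) (mk (al X')) (mk w) := by
      have h2 := congrArg mk hrel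
      simp only [map_add, map_mul, map_pow, map_sum, map_neg, map_one, map_zero] at h2
      exact h2
    refine h1.eq_pow (fun j hj => ?_) hXPw
    have := congrArg mk (hc' j hj)
    rw [map_natCast, map_mul, map_pow, map_neg] at this
    exact this
  have hwne : mk w ≠ 0 := fun h => hnil (by rw [h]; exact IsNilpotent.zero)
  have hwnu : ¬ IsUnit (mk w) := by
    have : mk w ∈ maximalIdeal (AdjoinRoot q ⧸ Ideal.span {g}) := by
      rw [hmO]
      exact Ideal.mem_span_singleton_self _
    exact this
  have hker : ∀ a : A, a ∈ p ↔ mk (al a) = 0 := by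
    intro a
    rw [hmk, Ideal.Quotient.eq_zero_iff_mem]
    rfl
  have hnot : ¬ IsRegularLocalRing (A ⧸ p) := by
    intro hreg
    -- `p` is not zero
    have hpne : p ≠ ⊥ := by
      intro hbot
      have hinj2 : Function.Injective (algebraMap A (AdjoinRoot q ⧸ Ideal.span {g})) := by
        rw [injective_iff_map_eq_zero]
        intro a ha
        have h1 : a ∈ p := (hker a).2 ha
        rw [hbot] at h1
        simpa using h1
      have : Algebra.IsIntegral A (AdjoinRoot q ⧸ Ideal.span {g}) := inferInstance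
      have h1 := dim_two hinj2 hdim.ge
      have h2 : ringKrullDim (AdjoinRoot q ⧸ Ideal.span {g}) ≤ 1 := by
        refine (ringKrullDim_le_spanFinrank_maximalIdeal _).trans ?_
        rw [hmO]
        exact finrank_span_one _
      have h3 := h1.trans h2
      exact absurd h3 (by decide)
    obtain ⟨r, hrp, hr0⟩ := Submodule.exists_mem_ne_zero_of_ne_bot hpne
    have hdimAp : ringKrullDim (A ⧸ p) ≤ 1 := by
      have h1 := ringKrullDim_quotient_succ_le_of_nonZeroDivisor (mem_nonZeroDivisors_of_ne_zero hr0)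
      rw [hdim] at h1
      have h2 : ringKrullDim (A ⧸ p) ≤ ringKrullDim (A ⧸ Ideal.span {r}) := by
        refine ringKrullDim_le_of_surjective (Ideal.Quotient.factor ?_)
          (Ideal.Quotient.factor_surjective _)
        rw [Ideal.span_singleton_le_iff_mem]
        exact hrp
      exact h2.trans (wb_two h1)
    obtain ⟨tb, htb⟩ := principal_of_regular hdimAp
    obtain ⟨t, rfl⟩ := Ideal.Quotient.mk_surjective tb
    have hloc1 : IsLocalHom (Ideal.Quotient.mk p) :=
      IsLocalHom.of_surjective _ Ideal.Quotient.mk_surjective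
    have htm : t ∈ maximalIdeal A := by
      have h1 : Ideal.Quotient.mk p t ∈ maximalIdeal (A ⧸ p) := by
        rw [htb]
        exact Ideal.mem_span_singleton_self _
      intro hu
      exact h1 (hu.map _)
    have hmul : ∀ y ∈ maximalIdeal A, ∃ a : A, mk (al y) = mk (al a) * mk (al t) := by
      intro y hy
      have h1 : Ideal.Quotient.mk p y ∈ maximalIdeal (A ⧸ p) := map_nonunit _ y hy
      rw [htb, Ideal.mem_span_singleton'] at h1
      obtain ⟨ab, hab⟩ := h1
      obtain ⟨a, rfl⟩ := Ideal.Quotient.mk_surjective ab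
      refine ⟨a, ?_⟩
      rw [← map_mul, Ideal.Quotient.eq] at hab
      have h2 := (hker _).1 hab
      rw [map_sub, map_sub, map_mul, map_mul, sub_eq_zero] at h2
      exact h2.symm
    obtain ⟨a, ha⟩ := hmul P hPm
    obtain ⟨b, hb⟩ := hmul X' hXm
    rw [hm] at htm
    obtain ⟨r1, s1, ht⟩ := Ideal.mem_span_pair.1 htm
    set v := mk (al r1) + mk (al s1) * mk w with hv
    have ht' : mk (al t) = mk w ^ (k + 1) * v := by
      rw [← ht, map_add, map_mul, map_mul, map_add, map_mul, map_mul, hXPw, hW, hv]
      ring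
    have hwk : mk w ^ (k + 1) ≠ 0 := pow_ne_zero _ hwne
    have hav : mk (al a) * v = 1 := by
      apply mul_left_cancel₀ hwk
      rw [mul_one]
      conv_rhs => rw [← hW, ha, ht']
      ring
    have hbv : mk (al b) * v = mk w := by
      apply mul_left_cancel₀ hwk
      have h1 : mk w ^ (k + 1) * mk w = mk (al X') := by rw [hXPw, hW]
      rw [h1, hb, ht']
      ring
    have hb2 : mk (al b) = mk (al a) * mk w := by
      calc mk (al b) = (mk (al a) * v) * mk (al b) := by rw [hav, one_mul]
        _ = mk (al a) * (mk (al b) * v) := by ring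
        _ = mk (al a) * mk w := by rw [hbv]
    have hbm : b ∈ maximalIdeal A := by
      intro hu
      have h1 : IsUnit (mk (al b)) := (hu.map al).map mk
      rw [hb2] at h1
      exact hwnu (isUnit_of_mul_isUnit_right h1)
    rw [hm] at hbm
    obtain ⟨r2, s2, hb3⟩ := Ideal.mem_span_pair.1 hbm
    have hb4 : mk (al b) = mk w ^ (k + 1) * (mk (al r2) + mk (al s2) * mk w) := by
      rw [← hb3, map_add, map_mul, map_mul, map_add, map_mul, map_mul, hXPw, hW]
      ring
    have ha2 : mk (al a) = mk w ^ k * (mk (al r2) + mk (al s2) * mk w) := by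
      apply mul_right_cancel₀ hwne
      rw [← hb2, hb4, pow_succ]
      ring
    obtain ⟨k', rfl⟩ : ∃ k', k = k' + 1 := ⟨k - 1, by omega⟩
    have h1 : IsUnit (mk (al a)) := IsUnit.of_mul_eq_one _ hav
    rw [ha2, pow_succ] at h1
    have h2 := isUnit_of_mul_isUnit_left h1
    exact hwnu (isUnit_of_mul_isUnit_right h2)
  refine ⟨AdjoinRoot q, inferInstance, inferInstance, hregB, hinj, hfin, hfree, ?_, p, hpprime,
    ?_, hfp, hnot⟩
  · rw [← hnd]
    exact finrank_quotient_span_eq_natDegree' hqm
  · change IsRegularLocalRing (AdjoinRoot q ⧸ (p.map al).radical)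
    rw [hrad]
    exact hregO

end construction

end Pool.Agent.Y379.RG
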