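import Mathlib
import Pool.Agent.Y379.RG.Main

set_option autoImplicit false

open Polynomial IsLocalRing NumberField

namespace Pool.Agent.Y379.RG

/-- `(ζ - 1) ^ (l - 1)` divides `l` -/
lemma pow_dvd_prime {S : Type*} [CommRing S] [IsDomain S] {l : ℕ} (hl : l.Prime) {ζ : S}
    (hζ : IsPrimitiveRoot ζ l) : (ζ - 1) ^ (l - 1) ∣ (l : S) := by
  have : Fact l.Prime := ⟨hl⟩
  have h1 : (l : S) = ∏ μ ∈ primitiveRoots l S, (1 - μ) := by
    have h2 := eval_one_cyclotomic_prime (R := S) (p := l)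
    rw [cyclotomic_eq_prod_X_sub_primitiveRoots hζ, eval_prod] at h2
    rw [← h2]
    refine Finset.prod_congr rfl fun μ _ => ?_
    simp
  have h3 : (primitiveRoots l S).card = l - 1 := by
    rw [hζ.card_primitiveRoots, Nat.totient_prime hl]
  rw [h1, ← h3, ← Finset.prod_const]
  refine Finset.prod_dvd_prod_of_dvd _ _ fun μ hμ => ?_
  have hμ' := isPrimitiveRoot_of_mem_primitiveRoots hμ
  obtain ⟨i, _, rfl⟩ := hζ.eq_pow_of_pow_eq_one hμ'.pow_eq_one
  have h4 := sub_dvd_pow_sub_pow ζ 1 i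
  rw [one_pow] at h4
  have h5 : 1 - ζ ^ i = -(ζ ^ i - 1) := by ring
  rw [h5]
  exact h4.trans (dvd_neg.2 dvd_rfl)

section local_ring

variable {S : Type} [CommRing S] (ϖ : S)

/-- the prime ideal generated by `ϖ` and `X` -/
noncomputable def PP : Ideal S[X] := (Ideal.span {ϖ}).comap (constantCoeff : S[X] →+* S)

lemma PP_span : PP ϖ = Ideal.span {C ϖ, X} := by
  apply le_antisymm
  · intro f hf
    have h1 : f.coeff 0 ∈ Ideal.span {ϖ} := hf
    obtain ⟨a, ha⟩ := Ideal.mem_span_singleton'.1 h1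
    refine Ideal.mem_span_pair.2 ⟨C a, f.divX, ?_⟩
    conv_rhs => rw [← divX_mul_X_add f]
    rw [← ha, C_mul]
    ring
  · rw [Ideal.span_le]
    rintro f (rfl | rfl)
    · show constantCoeff (C ϖ) ∈ Ideal.span {ϖ}
      rw [constantCoeff_apply, coeff_C_zero]
      exact Ideal.mem_span_singleton_self _
    · show constantCoeff (X : S[X]) ∈ Ideal.span {ϖ}
      rw [constantCoeff_apply, coeff_X_zero]
      exact Ideal.zero_mem _

variable {ϖ}

lemma PP_prime (hϖ : Prime ϖ) : (PP ϖ).IsPrime := by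
  have : (Ideal.span {ϖ}).IsPrime := (Ideal.span_singleton_prime hϖ.ne_zero).2 hϖ
  exact Ideal.IsPrime.comap _

lemma PP_height [IsDomain S] (hϖ : Prime ϖ) : 2 ≤ (PP ϖ).height := by
  have h0 := PP_prime hϖ
  have h1 : (Ideal.span {(X : S[X])}).IsPrime := (Ideal.span_singleton_prime X_ne_zero).2 prime_X
  have h2 : (⊥ : Ideal S[X]).IsPrime := Ideal.isPrime_bot
  have lt1 : (⊥ : Ideal S[X]) < Ideal.span {(X : S[X])} := by
    rw [bot_lt_iff_ne_bot, ne_eq, Ideal.span_singleton_eq_bot]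
    exact X_ne_zero
  have lt2 : Ideal.span {(X : S[X])} < PP ϖ := by
    refine lt_of_le_of_ne ?_ ?_
    · rw [PP_span, Ideal.span_singleton_le_iff_mem]
      exact Ideal.subset_span (by simp)
    · intro he
      have h3 : C ϖ ∈ Ideal.span {(X : S[X])} := by
        rw [he, PP_span]
        exact Ideal.subset_span (by simp)
      rw [Ideal.mem_span_singleton, X_dvd_iff, coeff_C_zero] at h3
      exact hϖ.ne_zero h3
  have h3 := Ideal.height_add_one_le_of_lt_of_isPrime lt1
  have h4 := Ideal.height_add_one_le_of_lt_of_isPrime lt2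
  have h5 : (1 : ℕ∞) ≤ (Ideal.span {(X : S[X])}).height := le_trans (by simp) h3
  calc (2 : ℕ∞) = 1 + 1 := by rw [one_add_one_eq_two]
    _ ≤ (Ideal.span {(X : S[X])}).height + 1 := add_le_add_left h5 1
    _ ≤ _ := h4

end local_ring

/-- a two-dimensional ramified regular local ring for every prime -/
lemma exists_ring {l : ℕ} (hl : l.Prime) : ∃ (A : Type) (_ : CommRing A) (_ : IsDomain A)
    (_ : IsRegularLocalRing A) (P X' : A), CharZero A ∧
    maximalIdeal A = Ideal.span {P, X'} ∧ ringKrullDim A = 2 ∧ P ^ (l - 1) ∣ (l : A) := by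
  have : Fact l.Prime := ⟨hl⟩
  have : NeZero l := ⟨hl.ne_zero⟩
  have hcyc : IsCyclotomicExtension {l} ℚ (CyclotomicField l ℚ) :=
    CyclotomicField.isCyclotomicExtension l ℚ
  have hζ := IsCyclotomicExtension.zeta_spec l ℚ (CyclotomicField l ℚ)
  set ϖ : 𝓞 (CyclotomicField l ℚ) := hζ.toInteger - 1 with hϖ
  have hprime : Prime ϖ := hζ.zeta_sub_one_prime'
  have hP : (PP ϖ).IsPrime := PP_prime hprime
  have hdvd : ϖ ^ (l - 1) ∣ (l : 𝓞 (CyclotomicField l ℚ)) :=
    pow_dvd_prime hl hζ.toInteger_isPrimitiveRoot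
  have hreg : IsRegularRing (𝓞 (CyclotomicField l ℚ))[X] := inferInstance
  have hregA : IsRegularLocalRing (Localization.AtPrime (PP ϖ)) := inferInstance
  set al := algebraMap (𝓞 (CyclotomicField l ℚ))[X] (Localization.AtPrime (PP ϖ)) with hal
  have hinj : Function.Injective al :=
    IsLocalization.injective _ (PP ϖ).primeCompl_le_nonZeroDivisors
  have hm : maximalIdeal (Localization.AtPrime (PP ϖ)) = Ideal.span {al (C ϖ), al X} := by
    have h1 := congrArg (Ideal.map al) (PP_span ϖ)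
    rw [Ideal.map_span, Set.image_pair] at h1
    rw [← h1, ← Localization.AtPrime.map_eq_maximalIdeal]
  refine ⟨Localization.AtPrime (PP ϖ), inferInstance, inferInstance, hregA, al (C ϖ), al X,
    charZero_of_injective_algebraMap hinj, hm, ?_, ?_⟩
  · apply le_antisymm
    · refine (ringKrullDim_le_spanFinrank_maximalIdeal _).trans ?_
      rw [hm]
      exact finrank_span_two _ _
    · rw [IsLocalization.AtPrime.ringKrullDim_eq_height (PP ϖ)]
      exact WithBot.coe_le_coe.2 (PP_height hprime)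
  · obtain ⟨t, ht⟩ := hdvd
    refine ⟨al (C t), ?_⟩
    rw [← map_pow, ← map_mul, ← C_pow, ← C_mul, ← ht]
    simp

end Pool.Agent.Y379.RG
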